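import Mathlib
import Pool.Agent.W5h23.PW.Mean

/-!
# `P = W` from one approximate inclusion and the average weight
-/

set_option autoImplicit false

open Filter Topology Pool.Agent.W5h23.PW

namespace Pool.Agent.Results.MP_65ad7c_ag.AverageWeights

theorem result {𝔾 : Type} [Mul 𝔾] (T : Theory 𝔾) :
    (∀ G, ((T.Q1 G ∧ T.Q2 G) ↔
        (∀ k, T.W G (2 * k + 1) ≤ T.P G k) ∧ T.wt G ≤ 2 * T.pv G) ∧
      ((T.Q1 G ∧ T.Q2 G) ↔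
        (∀ k, T.P G k ≤ T.W G (2 * k)) ∧ 2 * T.pv G ≤ T.wt G)) ∧
    ∀ r : 𝔾 → ℕ, (∀ G, 0 < r G) → (∀ G G', r (G * G') = r G + r G') →
      ((∀ G, T.Q1 G ∧ T.Q2 G) ↔ ∃ (e : ℕ → ℕ) (g : ℕ → ℝ),
        Tendsto (fun n => (e n : ℝ) / n) atTop (𝓝 0) ∧ Tendsto (fun n => g n / n) atTop (𝓝 0) ∧
        ∀ G, (∀ k, T.W G (2 * k) ≤ T.P G (k + e (r G))) ∧
          T.wt G - 2 * T.pv G ≤ g (r G) * T.dim G) ∧
      ((∀ G, T.Q1 G ∧ T.Q2 G) ↔ ∃ (e : ℕ → ℕ) (g : ℕ → ℝ),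
        Tendsto (fun n => (e n : ℝ) / n) atTop (𝓝 0) ∧ Tendsto (fun n => g n / n) atTop (𝓝 0) ∧
        ∀ G, (∀ k, T.P G k ≤ T.W G (2 * (k + e (r G)))) ∧
          2 * T.pv G - T.wt G ≤ g (r G) * T.dim G) ∧
      ((∀ G, T.Q1 G ∧ T.Q2 G) ↔ ∃ f g : ℕ → ℝ,
        Tendsto (fun n => f n / √n) atTop (𝓝 0) ∧ Tendsto (fun n => g n / n) atTop (𝓝 0) ∧
        ∀ G, T.over G ≤ f (r G) * T.dim G ∧ T.wt G - 2 * T.pv G ≤ g (r G) * T.dim G) ∧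
      ((∀ G, T.Q1 G ∧ T.Q2 G) ↔ ∃ f g : ℕ → ℝ,
        Tendsto (fun n => f n / √n) atTop (𝓝 0) ∧ Tendsto (fun n => g n / n) atTop (𝓝 0) ∧
        ∀ G, T.under G ≤ f (r G) * T.dim G ∧ 2 * T.pv G - T.wt G ≤ g (r G) * T.dim G) := by
  have h0 : Tendsto (fun n : ℕ => (((0 : ℕ) : ℝ)) / n) atTop (𝓝 0) := by simp
  have h0' : Tendsto (fun n : ℕ => (0 : ℝ) / n) atTop (𝓝 0) := by simp
  have h0'' : Tendsto (fun n : ℕ => (0 : ℝ) / √n) atTop (𝓝 0) := by simp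
  have hle : ∀ G, T.Q1 G ∧ T.Q2 G → ∀ k, T.W G (2 * k + 1) ≤ T.P G k := fun G h k => by
    rw [h.1 k, h.2 k]
  have hle' : ∀ G, T.Q1 G ∧ T.Q2 G → ∀ k, T.P G k ≤ T.W G (2 * k) := fun G h k => (h.2 k).ge
  refine ⟨fun G => ⟨⟨fun h => ⟨hle G h, (sums_eq h).1.le⟩, fun h => q12_of_wlep h.1 h.2⟩,
    ⟨fun h => ⟨hle' G h, (sums_eq h).1.ge⟩, fun h => q12_of_plew h.1 h.2⟩⟩, fun r hr0 hr => ?_⟩
  refine ⟨⟨fun h => ?_, ?_⟩, ⟨fun h => ?_, ?_⟩, ⟨fun h => ?_, ?_⟩, ⟨fun h => ?_, ?_⟩⟩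
  · refine ⟨fun _ => 0, fun _ => 0, h0, h0', fun G => ⟨fun k => ?_, ?_⟩⟩
    · exact ((h G).2 k).le
    · rw [(sums_eq (h G)).1, zero_mul, sub_self]
  · rintro ⟨e, g, he, hg, h⟩ G
    have h1 := of_wlep hr0 hr he (fun G => (h G).1) G
    have h2 := diff_nonpos hr0 hr hg (fun G => (h G).2) G
    exact q12_of_wlep h1 (by linarith)
  · refine ⟨fun _ => 0, fun _ => 0, h0, h0', fun G => ⟨fun k => ?_, ?_⟩⟩
    · exact ((h G).2 k).ge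
    · rw [(sums_eq (h G)).1, zero_mul, sub_self]
  · rintro ⟨e, g, he, hg, h⟩ G
    have h1 := of_plew hr0 hr he (fun G => (h G).1) G
    have h2 := diff_nonneg hr0 hr hg (fun G => (h G).2) G
    exact q12_of_plew h1 (by linarith)
  · refine ⟨fun _ => 0, fun _ => 0, h0'', h0', fun G => ⟨?_, ?_⟩⟩
    · rw [(sums_eq (h G)).2.1, zero_mul]
    · rw [(sums_eq (h G)).1, zero_mul, sub_self]
  · rintro ⟨f, g, hf, hg, h⟩ G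
    exact of_over hr0 hr hf hg (fun G => (h G).1) (fun G => (h G).2) G
  · refine ⟨fun _ => 0, fun _ => 0, h0'', h0', fun G => ⟨?_, ?_⟩⟩
    · rw [(sums_eq (h G)).2.2, zero_mul]
    · rw [(sums_eq (h G)).1, zero_mul, sub_self]
  · rintro ⟨f, g, hf, hg, h⟩ G
    exact of_under hr0 hr hf hg (fun G => (h G).1) (fun G => (h G).2) G

end Pool.Agent.Results.MP_65ad7c_ag.AverageWeights
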