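import Pool.Agent.W5h91.PC.B

/-!
# `P = W` for a variety and for its finite étale covers

For a connected finite étale cover `X' → X` of degree `m` the moduli spaces `M(X, G ≀ S_m)` have the open
and closed part `M(X', G) / Aut(X'/X)`. By the theorem below a weak form of `P = W` for `X` and all `G`
implies `P = W` for `X'` and all `G`.
-/

set_option autoImplicit false
set_option linter.all false

open Filter Topology Pool.Agent.W5h23.PW Pool.Agent.W5h91.PC

namespace Pool.Agent.Results.MP_65ad7c_ag.EtaleCovers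

/-- Let `𝕏` be a class of smooth projective varieties and `𝔾` a class of reductive groups (not
necessarily connected) of positive rank `r`, closed under products and wreath products with symmetric
groups, see `Covers`; let `𝒞` be a class of varieties such that every `X'` in `𝕏` is a connected finite
étale cover (or a deformation of such a cover) of some `X` in `𝒞`.

1. If `X'` is a cover of `X` of degree `m` and `N = |Aut(X'/X)|`, then Q1 and Q2 hold for `(X', G)` if for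
some `n` and `e` with `N ∣ n + 1`, `2 e < n` the filtrations of `(X, G^(n+1) ≀ S_m)` are close up to `e`.

2. Q1 and Q2 hold for all `(X', G)` if and only if for every `X` in `𝒞` the filtrations of `(X, G)` are
close up to `e(r(G))` for all `G`, where `e(n) = o(n)`.

3. `W_{2k+1} ⊆ P_k` for all `(X', G)` and `k` if and only if for every `X` in `𝒞` there is `e(n) = o(n)`
with `W_{2k} ⊆ P_{k+e(r(G))}` for all `G` and `k`.

4. `P_k ⊆ W_{2k}` for all `(X', G)` and `k` if and only if for every `X` in `𝒞` there is `e(n) = o(n)`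
with `P_k ⊆ W_{2k+2e(r(G))}` for all `G` and `k`. -/
theorem result {𝕏 𝔾 : Type} [Mul 𝔾] (C : Covers 𝕏 𝔾) (r : 𝔾 → ℕ) (hr0 : ∀ G, 0 < r G)
    (hr : ∀ G G', r (G * G') = r G + r G') (hw : ∀ G m, 0 < m → r (C.wr G m) = m * r G)
    (𝒞 : Set 𝕏) (h𝒞 : ∀ X', ∃ X ∈ 𝒞, ∃ m, C.IsCover X' X m) :
    (∀ X' X m, C.IsCover X' X m → ∃ N > 0, ∀ G n e, N ∣ n + 1 → 2 * e < n →
      (C.T X).Close (C.wr (pw G n) m) e → (C.T X').Q1 G ∧ (C.T X').Q2 G) ∧
    ((∀ X' G, (C.T X').Q1 G ∧ (C.T X').Q2 G) ↔ ∀ X ∈ 𝒞, Weakly r (C.T X).Close) ∧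
    ((∀ X' G, OddInP (C.T X') G) ↔ ∀ X ∈ 𝒞, Weakly r (WinP (C.T X))) ∧
    ((∀ X' G, PinW (C.T X') G 0) ↔ ∀ X ∈ 𝒞, Weakly r (PinW (C.T X))) := by
  have h0 : Tendsto (fun n : ℕ => (((0 : ℕ) : ℝ)) / n) atTop (𝓝 0) := by simp
  have hboth : ∀ X' G, OddInP (C.T X') G → PinW (C.T X') G 0 → (C.T X').Q1 G ∧ (C.T X').Q2 G := by
    intro X' G h1 h2
    refine ⟨fun k => le_antisymm ((h1 k).trans (h2 k)) ((C.T X').monoW G (Nat.le_succ _)),
      fun k => le_antisymm (((C.T X').monoW G (Nat.le_succ _)).trans (h1 k)) (h2 k)⟩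
  have hrank : ∀ G n m, 0 < m → r (C.wr (pw G n) m) = (m * r G) * (n + 1) := by
    intro G n m hm
    rw [hw _ _ hm, rank_pw hr]
    ring
  have side1 : (∀ X ∈ 𝒞, Weakly r (WinP (C.T X))) → ∀ X' G, OddInP (C.T X') G := by
    intro h X' G
    obtain ⟨X, hX, m, hc⟩ := h𝒞 X'
    obtain ⟨e, he, h1⟩ := h X hX
    obtain ⟨N, hN, h2⟩ := pair C hc
    obtain ⟨n, hn, hen⟩ := exists_n he (c := m * r G) (Nat.mul_pos (C.pos _ _ _ hc) (hr0 G)) hN
    refine (h2 G n _ hn hen).1 ?_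
    rw [← hrank G n m (C.pos _ _ _ hc)]
    exact h1 _
  have side2 : (∀ X ∈ 𝒞, Weakly r (PinW (C.T X))) → ∀ X' G, PinW (C.T X') G 0 := by
    intro h X' G
    obtain ⟨X, hX, m, hc⟩ := h𝒞 X'
    obtain ⟨e, he, h1⟩ := h X hX
    obtain ⟨N, hN, h2⟩ := pair C hc
    obtain ⟨n, hn, hen⟩ := exists_n he (c := m * r G) (Nat.mul_pos (C.pos _ _ _ hc) (hr0 G)) hN
    refine (h2 G n _ hn hen).2 ?_
    rw [← hrank G n m (C.pos _ _ _ hc)]
    exact h1 _
  refine ⟨?_, ⟨?_, ?_⟩, ⟨?_, side1⟩, ⟨?_, side2⟩⟩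
  · intro X' X m hc
    obtain ⟨N, hN, h⟩ := pair C hc
    refine ⟨N, hN, fun G n e hn he hcl => hboth X' G ?_ ?_⟩
    · exact (h G n e hn he).1 fun k => (hcl k).1
    · exact (h G n e hn he).2 fun k => (hcl k).2
  · intro h X _
    refine ⟨fun _ => 0, h0, fun G k => ?_⟩
    have h2 := (h X G).2 k
    rw [Nat.add_zero]
    exact ⟨h2.le, h2.ge⟩
  · intro h X' G
    refine hboth X' G (side1 (fun X hX => ?_) X' G) (side2 (fun X hX => ?_) X' G)
    · obtain ⟨e, he, h1⟩ := h X hX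
      exact ⟨e, he, fun G k => (h1 G k).1⟩
    · obtain ⟨e, he, h1⟩ := h X hX
      exact ⟨e, he, fun G k => (h1 G k).2⟩
  · intro h X _
    exact ⟨fun _ => 0, h0, fun G k => ((C.T X).monoW G (Nat.le_succ _)).trans (h X G k)⟩
  · intro h X _
    exact ⟨fun _ => 0, h0, fun G k => h X G k⟩

end Pool.Agent.Results.MP_65ad7c_ag.EtaleCovers
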