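import Mathlib
import Pool.Agent.W5h23.PW.Step

/-!
# One step of the filtrations suffices for `P = W`
-/

set_option autoImplicit false

open Pool.Agent.W5h23.PW

namespace Pool.Agent.Results.MP_65ad7c_ag.OneStepSuffices

theorem result {𝔾 : Type} [Mul 𝔾] (T : Theory 𝔾) (s : 𝔾 → ℕ)
    (hs : ∀ G G', s (G * G') = s G + s G') (htW : ∀ G, T.W G (2 * s G) = ⊤)
    (htP : ∀ G, T.P G (s G) = ⊤) (T0 : 𝔾) (hq : T.Q1 T0 ∧ T.Q2 T0) (hs0 : 0 < s T0)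
    (hT0 : ∀ j < s T0, T.P T0 j ≠ T.P T0 (j + 1)) (k e : ℕ → ℕ) (𝒩 : Set ℕ)
    (hk : ∀ A, ∃ N ∈ 𝒩, s T0 ∣ N ∧ A * (e N + 1) ≤ k N ∧ k N + A * (e N + 1) ≤ N) :
    ((∀ G l, T.W G (2 * l + 1) ≤ T.P G l) ↔
      ∀ G, s G ∈ 𝒩 → T.W G (2 * k (s G)) ≤ T.P G (k (s G) + e (s G))) ∧
    ((∀ G l, T.P G l ≤ T.W G (2 * l)) ↔
      ∀ G, s G ∈ 𝒩 → T.P G (k (s G)) ≤ T.W G (2 * (k (s G) + e (s G)))) ∧
    ((∀ G, T.Q1 G ∧ T.Q2 G) ↔
      ∀ G, s G ∈ 𝒩 → T.W G (2 * k (s G)) ≤ T.P G (k (s G) + e (s G)) ∧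
        T.P G (k (s G)) ≤ T.W G (2 * (k (s G) + e (s G)))) := by
  refine ⟨⟨fun h G _ => ?_, fun h G l => wlep_of_step hq hs hs0 hT0 hk htW h G l⟩,
    ⟨fun h G _ => ?_, fun h G l => plew_of_step hq hs hs0 hT0 hk htP h G l⟩,
    ⟨fun h G _ => ⟨?_, ?_⟩, fun h G => ?_⟩⟩
  · exact ((T.monoW G (Nat.le_succ _)).trans (h G _)).trans (T.monoP G (Nat.le_add_right _ _))
  · exact (h G _).trans (T.monoW G (Nat.mul_le_mul_left 2 (Nat.le_add_right _ _)))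
  · rw [(h G).2]
    exact T.monoP G (Nat.le_add_right _ _)
  · rw [(h G).2]
    exact T.monoP G (Nat.le_add_right _ _)
  · exact q12_of_both (fun l => wlep_of_step hq hs hs0 hT0 hk htW (fun G hG => (h G hG).1) G l)
      (fun l => plew_of_step hq hs hs0 hT0 hk htP (fun G hG => (h G hG).2) G l)

end Pool.Agent.Results.MP_65ad7c_ag.OneStepSuffices
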