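import Mathlib
import Pool.Agent.W5h23.PW.Main3

/-!
# `P = W` for `G × G'`, and approximate or average forms of `P = W`
-/

set_option autoImplicit false

open Filter Topology Pool.Agent.W5h23.PW

namespace Pool.Agent.Results.MP_65ad7c_ag.PowersOfTheGroup

theorem result {𝔾 : Type} [Mul 𝔾] (T : Theory 𝔾) :
    (∀ G G', (T.Q1 (G * G') ↔ T.Q1 G ∧ T.Q1 G') ∧
      (T.Q2 (G * G') ↔ T.Q2 G ∧ T.Q2 G' ∧ (T.Q1 G ∨ T.Q1 G'))) ∧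
    (∀ G, (T.Q1 G ∧ T.Q2 G) ∨
      ((∀ m e : ℕ, 2 * e < m → ¬ T.Close (pw G m) e) ∧
      (∀ m : ℕ, T.agree (pw G m) ≤ √(T.dim G / (2 * (m + 2))) * T.dim (pw G m)) ∧
      ∀ m : ℕ, 8 * T.dim G ≤ m + 2 →
        √(2 * (m + 2) / T.dim G) / 16 * T.dim (pw G m) ≤ T.disp (pw G m))) ∧
    (∀ G, T.Q1 G ∨
      Tendsto (fun m => T.odd (pw G m) / T.dim (pw G m)) atTop (𝓝 (1 / 2))) ∧
    ((∀ G, T.Q1 G ∧ T.Q2 G) ↔ ∀ G, T.Q2 G) ∧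
    ((∀ G, T.Q1 G) ↔ ∃ c < (1 / 2 : ℝ), ∀ G, T.odd G ≤ c * T.dim G) ∧
    ∀ r : 𝔾 → ℕ, (∀ G, 0 < r G) → (∀ G G', r (G * G') = r G + r G') →
      ((∀ G, T.Q1 G ∧ T.Q2 G) ↔ ∃ e : ℕ → ℕ, Tendsto (fun n => (e n : ℝ) / n) atTop (𝓝 0) ∧
        ∀ G, T.Close G (e (r G))) ∧
      ((∀ G, T.Q1 G ∧ T.Q2 G) ↔ ∃ g : ℕ → ℝ, Tendsto (fun n => g n * √n) atTop atTop ∧
        ∀ G, g (r G) * T.dim G ≤ T.agree G) ∧
      ((∀ G, T.Q1 G ∧ T.Q2 G) ↔ ∃ g : ℕ → ℝ, Tendsto (fun n => g n / √n) atTop (𝓝 0) ∧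
        ∀ G, T.disp G ≤ g (r G) * T.dim G) ∧
      ((∀ G k, T.W G (2 * k + 1) ≤ T.P G k) ↔
        ∃ e : ℕ → ℕ, Tendsto (fun n => (e n : ℝ) / n) atTop (𝓝 0) ∧
          ∀ G k, T.W G (2 * k) ≤ T.P G (k + e (r G))) ∧
      ((∀ G k, T.P G k ≤ T.W G (2 * k)) ↔
        ∃ e : ℕ → ℕ, Tendsto (fun n => (e n : ℝ) / n) atTop (𝓝 0) ∧
          ∀ G k, T.P G k ≤ T.W G (2 * (k + e (r G)))) := by
  have h0 : Tendsto (fun n : ℕ => (((0 : ℕ) : ℝ)) / n) atTop (𝓝 0) := by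
    simp
  refine ⟨fun G G' => ⟨q1_mul G G', q2_mul G G'⟩, fun G => ?_, fun G => ?_, ?_, ?_, ?_⟩
  · by_cases h : T.Q1 G ∧ T.Q2 G
    · exact Or.inl h
    · exact Or.inr ⟨fun m e hme hc => h (q12_of_close hme hc), agree_le h, le_disp h⟩
  · by_cases h : T.Q1 G
    · exact Or.inl h
    · exact Or.inr (odd_tendsto h)
  · exact ⟨fun h G => (h G).2, fun h G => q12_of_q2 h G⟩
  · constructor
    · intro h
      refine ⟨0, by norm_num, fun G => ?_⟩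
      rw [odd_zero (h G), zero_mul]
    · rintro ⟨c, hc, h⟩ G
      exact of_odd hc h G
  · intro r hr0 hr
    refine ⟨⟨fun h => ?_, ?_⟩, ⟨fun h => ?_, ?_⟩, ⟨fun h => ?_, ?_⟩, ⟨fun h => ?_, ?_⟩,
      ⟨fun h => ?_, ?_⟩⟩
    · exact ⟨fun _ => 0, h0, fun G => close_of_q12 (h G) 0⟩
    · rintro ⟨e, he, h⟩ G
      exact of_close hr0 hr he h G
    · refine ⟨fun _ => 1, ?_, fun G => ?_⟩
      · simp only [one_mul]
        exact tendsto_natCast_atTop_atTop.comp tendsto_id |> (Real.tendsto_sqrt_atTop).comp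
      · rw [one_mul, agree_eq_dim (h G)]
    · rintro ⟨g, hg, h⟩ G
      exact of_agree hr0 hr hg h G
    · refine ⟨fun _ => 0, by simp, fun G => ?_⟩
      rw [disp_zero (h G), zero_mul]
    · rintro ⟨g, hg, h⟩ G
      exact of_disp hr0 hr hg h G
    · exact ⟨fun _ => 0, h0, fun G k => (T.monoW G (Nat.le_succ _)).trans (h G k)⟩
    · rintro ⟨e, he, h⟩ G k
      exact of_wlep hr0 hr he h G k
    · exact ⟨fun _ => 0, h0, h⟩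
    · rintro ⟨e, he, h⟩ G k
      exact of_plew hr0 hr he h G k

end Pool.Agent.Results.MP_65ad7c_ag.PowersOfTheGroup
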